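import Pool.Agent.W2helper94.DK.C

set_option autoImplicit false

/-!
# MP_1780a9: equal disks in the unit disk such that no line meets more than `k` of them

`rk k n` is the number `r_k(n)` of the problem: the supremum of the radii `r` such that the closed unit
disk contains `n` distinct closed disks of radius `r` of which no line meets more than `k`.

**Theorem.** `r_k(n) ≥ c k n^(-k/(k-1))` for all `k ≥ 2` and all `n ≥ k`, with an absolute constant
`c > 0` (`c = 1/86400`).

For fixed `k ≥ 3` this is a polynomial improvement of the bound `c (ln n) / n²`; together with the upper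
bound `r_k(n) ≤ k/n` it says `c k n^(-1-1/(k-1)) ≤ r_k(n) ≤ k n^(-1)`.  As the constant does not depend on
`k`, the two bounds agree up to a constant factor, and `r_k(n)` has the order `k/n`, as soon as
`k - 1` is at least a constant times `ln n`.

Proof: the deletion method for `2 n + 1` random centres.  If a line meets `k + 1` of the disks, then the
centres of `k - 1` of them are at distance at most `2 r` from the segment between the other two centres,
the probability of which is at most `(450 r)^(k-1)`.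
-/

open Metric

namespace Pool.Agent.Results.MP_1780a9_co.AllMultiplicities

/-- The plane. -/
abbrev Plane : Type := EuclideanSpace ℝ (Fin 2)

/-- The `n` closed disks with radius `r` and centres `x i` are distinct and contained in the closed
unit disk, and every straight line `{p + s u : s ∈ ℝ}`, `u ≠ 0`, meets at most `k` of them. -/
def Admissible (k : ℕ) {n : ℕ} (r : ℝ) (x : Fin n → Plane) : Prop :=
  Function.Injective x ∧ (∀ i, closedBall (x i) r ⊆ closedBall 0 1) ∧
    ∀ p u : Plane, u ≠ 0 → {i : Fin n | ∃ s : ℝ, p + s • u ∈ closedBall (x i) r}.ncard ≤ k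

/-- The number `r_k(n)`. -/
noncomputable def rk (k n : ℕ) : ℝ := sSup {r : ℝ | 0 < r ∧ ∃ x : Fin n → Plane, Admissible k r x}

open Pool.Agent.W2helper94.DK

theorem admissible_le_one {k n : ℕ} (hn : 1 ≤ n) {r : ℝ} (hr : 0 < r) {x : Fin n → Plane}
    (h : Admissible k r x) : r ≤ 1 := by
  have i : Fin n := ⟨0, hn⟩
  obtain ⟨-, h2, -⟩ := h
  set e : Plane := EuclideanSpace.single 0 1 with he
  have hen : ‖e‖ = 1 := by simp [he]
  have h3 : x i + r • e ∈ closedBall (0 : Plane) 1 := h2 i (by
    simp [mem_closedBall, norm_smul, hen, abs_of_pos hr])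
  have h4 : x i - r • e ∈ closedBall (0 : Plane) 1 := h2 i (by
    simp [mem_closedBall, dist_eq_norm, norm_smul, hen, abs_of_pos hr])
  rw [mem_closedBall, dist_zero_right] at h3 h4
  have h5 : ‖(2 * r) • e‖ ≤ 2 := by
    have e1 : (2 * r) • e = (x i + r • e) - (x i - r • e) := by module
    rw [e1]
    exact (norm_sub_le _ _).trans (by linarith)
  rw [norm_smul, hen, Real.norm_eq_abs, abs_of_pos (by linarith)] at h5
  linarith

/-- **The lower bound for all multiplicities.** -/
theorem result : ∃ c : ℝ, 0 < c ∧ ∀ k n : ℕ, 2 ≤ k → k ≤ n →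
    c * k * (n : ℝ) ^ (-((k : ℝ) / ((k : ℝ) - 1))) ≤ rk k n := by
  refine ⟨1 / 86400, by norm_num, ?_⟩
  intro k n hk hkn
  have hn : 1 ≤ n := by omega
  have hn0 : (0 : ℝ) < n := by exact_mod_cast hn
  have hn1 : (1 : ℝ) ≤ n := by exact_mod_cast hn
  have hk0 : (0 : ℝ) < k := by exact_mod_cast (by omega : 0 < k)
  have hk2 : (2 : ℝ) ≤ k := by exact_mod_cast hk
  have hk1 : (0 : ℝ) < (k : ℝ) - 1 := by linarith
  set r : ℝ := 1 / 86400 * k * (n : ℝ) ^ (-((k : ℝ) / ((k : ℝ) - 1))) with hr
  have hr0 : 0 < r := by positivity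
  have hpow : (n : ℝ) ^ (-((k : ℝ) / ((k : ℝ) - 1))) ≤ (n : ℝ) ^ (-1 : ℝ) := by
    apply Real.rpow_le_rpow_of_exponent_le hn1
    have : 1 ≤ (k : ℝ) / ((k : ℝ) - 1) := by
      rw [le_div_iff₀ hk1]
      linarith
    linarith
  have hrs : r ≤ 1 / 86400 := by
    have h1 : r ≤ 1 / 86400 * k * (n : ℝ) ^ (-1 : ℝ) := by
      rw [hr]
      gcongr
    rw [Real.rpow_neg_one] at h1
    have h2 : (k : ℝ) * (n : ℝ)⁻¹ ≤ 1 := by
      rw [← div_eq_mul_inv, div_le_one hn0]
      exact_mod_cast hkn
    calc r ≤ 1 / 86400 * (k * (n : ℝ)⁻¹) := by rw [← mul_assoc]; exact h1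
      _ ≤ 1 / 86400 * 1 := by gcongr
      _ = _ := by ring
  have hkc : (((k - 1 : ℕ) : ℝ)) = (k : ℝ) - 1 := by
    rw [Nat.cast_sub (by omega), Nat.cast_one]
  have hrk : r ^ (k - 1) * (n : ℝ) ^ k ≤ ((k : ℝ) / 86400) ^ (k - 1) := by
    have e1 : ((n : ℝ) ^ (-((k : ℝ) / ((k : ℝ) - 1)))) ^ (k - 1) = ((n : ℝ) ^ k)⁻¹ := by
      rw [← Real.rpow_natCast, ← Real.rpow_mul hn0.le, hkc, neg_mul, div_mul_cancel₀ _ hk1.ne',
        Real.rpow_neg hn0.le, Real.rpow_natCast]
    rw [hr, mul_pow, e1, mul_assoc, inv_mul_cancel₀ (by positivity), mul_one]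
    apply le_of_eq
    congr 1
    ring
  obtain ⟨x, hx, hxn, hline⟩ := exists_disks hk hn hr0 (by linarith)
    (numeric hk hn hr0 hrk)
  have hadm : Admissible k r x := by
    refine ⟨hx, ?_, ?_⟩
    · intro i y hy
      rw [mem_closedBall, dist_eq_norm] at hy
      rw [mem_closedBall, dist_zero_right]
      have e : y = (y - x i) + x i := by abel
      rw [e]
      refine (norm_add_le _ _).trans ?_
      have := hxn i
      linarith
    · intro p u hu
      by_contra hcon
      push Not at hcon
      have hfin : {i : Fin n | ∃ s : ℝ, p + s • u ∈ closedBall (x i) r}.Finite := Set.toFinite _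
      obtain ⟨S, hS, hSc⟩ := Set.exists_subset_card_eq (n := k + 1) (by omega : k + 1 ≤
        {i : Fin n | ∃ s : ℝ, p + s • u ∈ closedBall (x i) r}.ncard)
      have hSf : S.Finite := Set.toFinite S
      refine hline hSf.toFinset ?_ ⟨p, u, hu, ?_⟩
      · rw [← Set.ncard_eq_toFinset_card S hSf]
        exact hSc
      · intro l hl
        rw [Set.Finite.mem_toFinset] at hl
        obtain ⟨s, hs⟩ := hS hl
        refine ⟨s, ?_⟩
        rwa [mem_closedBall, dist_eq_norm] at hs
  apply le_csSup
  · refine ⟨1, ?_⟩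
    rintro ρ ⟨hρ, y, hy⟩
    exact admissible_le_one hn hρ hy
  · exact ⟨hr0, x, hadm⟩

end Pool.Agent.Results.MP_1780a9_co.AllMultiplicities
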